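import Pool.Agent.Helper12.CW.W2K
import Pool.Agent.CXD.M_Q3_1
import Pool.Agent.CXD.M_Q3_2
import Pool.Agent.CXD.M_Q3_3
import Pool.Agent.CXD.M_Q3_4
import Pool.Agent.CXD.M_Q3_5
import Pool.Agent.CXD.M_Q4_0
import Pool.Agent.CXD.M_Q4_1
import Pool.Agent.CXD.M_Q4_2
import Pool.Agent.CXD.M_Q4_3
import Pool.Agent.CXD.M_Q4_4
import Pool.Agent.CXD.M_Q5_0
import Pool.Agent.CXD.M_Q5_1
import Pool.Agent.CXD.M_Q5_2
import Pool.Agent.CXD.M_Q5_3
import Pool.Agent.CXD.M_Q5_4
import Pool.Agent.CXD.M_Q5_5
import Pool.Agent.CXD.M_Q6_0
import Pool.Agent.CXD.M_Q6_1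
import Pool.Agent.CXD.M_Q6_2
import Pool.Agent.CXD.M_Q6_3
import Pool.Agent.CXD.M_Q6_4
import Pool.Agent.CXD.M_Q7_0
import Pool.Agent.CXD.M_Q7_1
import Pool.Agent.CXD.M_Q7_2
import Pool.Agent.CXD.M_Q8_0
import Pool.Agent.CXD.M_Q8_1
import Pool.Agent.CXD.M_Q9_0

/-!
The exact classes `3 ≤ p ≤ q ≤ r ≤ 9` (MP_c75db0).
-/

set_option autoImplicit false
noncomputable section
namespace Pool.Agent.Helper50.EX3

open Pool.Agent.Helper6.MONO Pool.Agent.Helper6.MONO.QTR Pool.Agent.CXD

theorem fin334 : FinAt 3 3 4 := finA (by decide) (by decide) (by decide) (by decide) q334 q334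
theorem fin335 : FinAt 3 3 5 := finA (by decide) (by decide) (by decide) (by decide) q335 q335
theorem fin336 : FinAt 3 3 6 := finA (by decide) (by decide) (by decide) (by decide) q336 q336
theorem fin337 : FinAt 3 3 7 := finA (by decide) (by decide) (by decide) (by decide) q337 q337
theorem fin338 : FinAt 3 3 8 := finA (by decide) (by decide) (by decide) (by decide) q338 q338
theorem fin339 : FinAt 3 3 9 := finA (by decide) (by decide) (by decide) (by decide) q339 q339
theorem fin344 : FinAt 3 4 4 := finA3 (by decide) (by decide) (by decide) q344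
theorem fin345 : FinAt 3 4 5 :=
  finA (by decide) (by decide) (by decide) (by decide) q345 (xA_swap 3 4 5 ▸ q435)
theorem fin346 : FinAt 3 4 6 :=
  finA (by decide) (by decide) (by decide) (by decide) q346 (xA_swap 3 4 6 ▸ q436)
theorem fin347 : FinAt 3 4 7 :=
  finA (by decide) (by decide) (by decide) (by decide) q347 (xA_swap 3 4 7 ▸ q437)
theorem fin348 : FinAt 3 4 8 :=
  finA (by decide) (by decide) (by decide) (by decide) q348 (xA_swap 3 4 8 ▸ q438)
theorem fin349 : FinAt 3 4 9 :=
  finA (by decide) (by decide) (by decide) (by decide) q349 (xA_swap 3 4 9 ▸ q439)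
theorem fin355 : FinAt 3 5 5 := finA3 (by decide) (by decide) (by decide) q355
theorem fin356 : FinAt 3 5 6 :=
  finA (by decide) (by decide) (by decide) (by decide) q356 (xA_swap 3 5 6 ▸ q536)
theorem fin357 : FinAt 3 5 7 :=
  finA (by decide) (by decide) (by decide) (by decide) q357 (xA_swap 3 5 7 ▸ q537)
theorem fin358 : FinAt 3 5 8 :=
  finA (by decide) (by decide) (by decide) (by decide) q358 (xA_swap 3 5 8 ▸ q538)
theorem fin359 : FinAt 3 5 9 :=
  finA (by decide) (by decide) (by decide) (by decide) q359 (xA_swap 3 5 9 ▸ q539)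
theorem fin366 : FinAt 3 6 6 := finA3 (by decide) (by decide) (by decide) q366
theorem fin367 : FinAt 3 6 7 :=
  finA (by decide) (by decide) (by decide) (by decide) q367 (xA_swap 3 6 7 ▸ q637)
theorem fin368 : FinAt 3 6 8 :=
  finA (by decide) (by decide) (by decide) (by decide) q368 (xA_swap 3 6 8 ▸ q638)
theorem fin369 : FinAt 3 6 9 :=
  finA (by decide) (by decide) (by decide) (by decide) q369 (xA_swap 3 6 9 ▸ q639)
theorem fin377 : FinAt 3 7 7 := finA3 (by decide) (by decide) (by decide) q377
theorem fin378 : FinAt 3 7 8 :=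
  finA (by decide) (by decide) (by decide) (by decide) q378 (xA_swap 3 7 8 ▸ q738)
theorem fin379 : FinAt 3 7 9 :=
  finA (by decide) (by decide) (by decide) (by decide) q379 (xA_swap 3 7 9 ▸ q739)
theorem fin388 : FinAt 3 8 8 := finA3 (by decide) (by decide) (by decide) q388
theorem fin389 : FinAt 3 8 9 :=
  finA (by decide) (by decide) (by decide) (by decide) q389 (xA_swap 3 8 9 ▸ q839)
theorem fin399 : FinAt 3 9 9 := finA3 (by decide) (by decide) (by decide) q399
theorem fin444 : FinAt 4 4 4 := finA3 (by decide) (by decide) (by decide) q444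
theorem fin445 : FinAt 4 4 5 := finA (by decide) (by decide) (by decide) (by decide) q445 q445
theorem fin446 : FinAt 4 4 6 := finA (by decide) (by decide) (by decide) (by decide) q446 q446
theorem fin447 : FinAt 4 4 7 := finA (by decide) (by decide) (by decide) (by decide) q447 q447
theorem fin448 : FinAt 4 4 8 := finA (by decide) (by decide) (by decide) (by decide) q448 q448
theorem fin449 : FinAt 4 4 9 := finA (by decide) (by decide) (by decide) (by decide) q449 q449
theorem fin455 : FinAt 4 5 5 := finA3 (by decide) (by decide) (by decide) q455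
theorem fin456 : FinAt 4 5 6 :=
  finA (by decide) (by decide) (by decide) (by decide) q456 (xA_swap 4 5 6 ▸ q546)
theorem fin457 : FinAt 4 5 7 :=
  finA (by decide) (by decide) (by decide) (by decide) q457 (xA_swap 4 5 7 ▸ q547)
theorem fin458 : FinAt 4 5 8 :=
  finA (by decide) (by decide) (by decide) (by decide) q458 (xA_swap 4 5 8 ▸ q548)
theorem fin459 : FinAt 4 5 9 :=
  finA (by decide) (by decide) (by decide) (by decide) q459 (xA_swap 4 5 9 ▸ q549)
theorem fin466 : FinAt 4 6 6 := finA3 (by decide) (by decide) (by decide) q466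
theorem fin467 : FinAt 4 6 7 :=
  finA (by decide) (by decide) (by decide) (by decide) q467 (xA_swap 4 6 7 ▸ q647)
theorem fin468 : FinAt 4 6 8 :=
  finA (by decide) (by decide) (by decide) (by decide) q468 (xA_swap 4 6 8 ▸ q648)
theorem fin469 : FinAt 4 6 9 :=
  finA (by decide) (by decide) (by decide) (by decide) q469 (xA_swap 4 6 9 ▸ q649)
theorem fin477 : FinAt 4 7 7 := finA3 (by decide) (by decide) (by decide) q477
theorem fin478 : FinAt 4 7 8 :=
  finA (by decide) (by decide) (by decide) (by decide) q478 (xA_swap 4 7 8 ▸ q748)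
theorem fin479 : FinAt 4 7 9 :=
  finA (by decide) (by decide) (by decide) (by decide) q479 (xA_swap 4 7 9 ▸ q749)
theorem fin488 : FinAt 4 8 8 := finA3 (by decide) (by decide) (by decide) q488
theorem fin489 : FinAt 4 8 9 :=
  finA (by decide) (by decide) (by decide) (by decide) q489 (xA_swap 4 8 9 ▸ q849)
theorem fin499 : FinAt 4 9 9 := finA3 (by decide) (by decide) (by decide) q499
theorem fin555 : FinAt 5 5 5 := finA3 (by decide) (by decide) (by decide) q555
theorem fin556 : FinAt 5 5 6 := finA (by decide) (by decide) (by decide) (by decide) q556 q556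
theorem fin557 : FinAt 5 5 7 := finA (by decide) (by decide) (by decide) (by decide) q557 q557
theorem fin558 : FinAt 5 5 8 := finA (by decide) (by decide) (by decide) (by decide) q558 q558
theorem fin559 : FinAt 5 5 9 := finA (by decide) (by decide) (by decide) (by decide) q559 q559
theorem fin566 : FinAt 5 6 6 := finA3 (by decide) (by decide) (by decide) q566
theorem fin567 : FinAt 5 6 7 :=
  finA (by decide) (by decide) (by decide) (by decide) q567 (xA_swap 5 6 7 ▸ q657)
theorem fin568 : FinAt 5 6 8 :=
  finA (by decide) (by decide) (by decide) (by decide) q568 (xA_swap 5 6 8 ▸ q658)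
theorem fin569 : FinAt 5 6 9 :=
  finA (by decide) (by decide) (by decide) (by decide) q569 (xA_swap 5 6 9 ▸ q659)
theorem fin577 : FinAt 5 7 7 := finA3 (by decide) (by decide) (by decide) q577
theorem fin578 : FinAt 5 7 8 :=
  finA (by decide) (by decide) (by decide) (by decide) q578 (xA_swap 5 7 8 ▸ q758)
theorem fin579 : FinAt 5 7 9 :=
  finA (by decide) (by decide) (by decide) (by decide) q579 (xA_swap 5 7 9 ▸ q759)
theorem fin588 : FinAt 5 8 8 := finA3 (by decide) (by decide) (by decide) q588
theorem fin589 : FinAt 5 8 9 :=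
  finA (by decide) (by decide) (by decide) (by decide) q589 (xA_swap 5 8 9 ▸ q859)
theorem fin599 : FinAt 5 9 9 := finA3 (by decide) (by decide) (by decide) q599
theorem fin666 : FinAt 6 6 6 := finA3 (by decide) (by decide) (by decide) q666
theorem fin667 : FinAt 6 6 7 := finA (by decide) (by decide) (by decide) (by decide) q667 q667
theorem fin668 : FinAt 6 6 8 := finA (by decide) (by decide) (by decide) (by decide) q668 q668
theorem fin669 : FinAt 6 6 9 := finA (by decide) (by decide) (by decide) (by decide) q669 q669
theorem fin677 : FinAt 6 7 7 := finA3 (by decide) (by decide) (by decide) q677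
theorem fin678 : FinAt 6 7 8 :=
  finA (by decide) (by decide) (by decide) (by decide) q678 (xA_swap 6 7 8 ▸ q768)
theorem fin679 : FinAt 6 7 9 :=
  finA (by decide) (by decide) (by decide) (by decide) q679 (xA_swap 6 7 9 ▸ q769)
theorem fin688 : FinAt 6 8 8 := finA3 (by decide) (by decide) (by decide) q688
theorem fin689 : FinAt 6 8 9 :=
  finA (by decide) (by decide) (by decide) (by decide) q689 (xA_swap 6 8 9 ▸ q869)
theorem fin699 : FinAt 6 9 9 := finA3 (by decide) (by decide) (by decide) q699
theorem fin777 : FinAt 7 7 7 := finA3 (by decide) (by decide) (by decide) q777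
theorem fin778 : FinAt 7 7 8 := finA (by decide) (by decide) (by decide) (by decide) q778 q778
theorem fin779 : FinAt 7 7 9 := finA (by decide) (by decide) (by decide) (by decide) q779 q779
theorem fin788 : FinAt 7 8 8 := finA3 (by decide) (by decide) (by decide) q788
theorem fin789 : FinAt 7 8 9 :=
  finA (by decide) (by decide) (by decide) (by decide) q789 (xA_swap 7 8 9 ▸ q879)
theorem fin799 : FinAt 7 9 9 := finA3 (by decide) (by decide) (by decide) q799
theorem fin888 : FinAt 8 8 8 := finA3 (by decide) (by decide) (by decide) q888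
theorem fin889 : FinAt 8 8 9 := finA (by decide) (by decide) (by decide) (by decide) q889 q889
theorem fin899 : FinAt 8 9 9 := finA3 (by decide) (by decide) (by decide) q899
theorem fin999 : FinAt 9 9 9 := finA3 (by decide) (by decide) (by decide) q999

/-- THE EXACT CLASSES with all orders from 3 to 9 -/
theorem fin_ex3 : ∀ p q r : ℕ, 3 ≤ p → p ≤ q → q ≤ r → r ≤ 9 → ¬ (p = 3 ∧ q = 3 ∧ r = 3) →
    FinAt p q r := by
  intro p q r hp hpq hqr hr hne
  have hq9 : q ≤ 9 := hqr.trans hr
  have hp9 : p ≤ 9 := hpq.trans hq9
  interval_cases p <;> interval_cases q <;> interval_cases r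
  · exact absurd ⟨rfl, rfl, rfl⟩ hne
  · exact fin334
  · exact fin335
  · exact fin336
  · exact fin337
  · exact fin338
  · exact fin339
  · exact fin344
  · exact fin345
  · exact fin346
  · exact fin347
  · exact fin348
  · exact fin349
  · exact fin355
  · exact fin356
  · exact fin357
  · exact fin358
  · exact fin359
  · exact fin366
  · exact fin367
  · exact fin368
  · exact fin369
  · exact fin377
  · exact fin378
  · exact fin379
  · exact fin388
  · exact fin389
  · exact fin399
  · exact fin444
  · exact fin445
  · exact fin446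
  · exact fin447
  · exact fin448
  · exact fin449
  · exact fin455
  · exact fin456
  · exact fin457
  · exact fin458
  · exact fin459
  · exact fin466
  · exact fin467
  · exact fin468
  · exact fin469
  · exact fin477
  · exact fin478
  · exact fin479
  · exact fin488
  · exact fin489
  · exact fin499
  · exact fin555
  · exact fin556
  · exact fin557
  · exact fin558
  · exact fin559
  · exact fin566
  · exact fin567
  · exact fin568
  · exact fin569
  · exact fin577
  · exact fin578
  · exact fin579
  · exact fin588
  · exact fin589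
  · exact fin599
  · exact fin666
  · exact fin667
  · exact fin668
  · exact fin669
  · exact fin677
  · exact fin678
  · exact fin679
  · exact fin688
  · exact fin689
  · exact fin699
  · exact fin777
  · exact fin778
  · exact fin779
  · exact fin788
  · exact fin789
  · exact fin799
  · exact fin888
  · exact fin889
  · exact fin899
  · exact fin999

end Pool.Agent.Helper50.EX3
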