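import Pool.Agent.Helper12.CW.W2E

/-!
Assembly of the arcs of the exact classes from the zones near, middle, far (MP_c75db0).
-/

set_option autoImplicit false
noncomputable section
namespace Pool.Agent.Helper50.CXA

open Pool.Agent.Helper6.MONO
open Pool.Agent.Helper6.MONO.QTR

/-- a smaller cell -/
theorem tcell_sub {p q r : ℕ} {x0 a b a' b' : ℝ} (h : TCell p q r x0 a b) (ha : a ≤ a')
    (hb : b' ≤ b) : TCell p q r x0 a' b' := by
  obtain ⟨C, h⟩ := h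
  exact ⟨C, fun w hw h1 h2 => h w hw (ha.trans h1) (h2.trans hb)⟩

/-- a smaller far zone -/
theorem far_sub {p q r : ℕ} {x0 b b' : ℝ} (h : Far p q r x0 b) (hb : b ≤ b') :
    Far p q r x0 b' := by
  obtain ⟨C, h⟩ := h
  exact ⟨C, fun w hw hi hr h1 => h w hw hi hr (h1.imp id hb.trans)⟩

/-- the quarter from cells with certificates of the general kind -/
theorem qx_of_cellX {p q r : ℕ} (hp : 3 ≤ p) (hq : 3 ≤ q) (hr : 3 ≤ r) {x0 b : ℝ}
    (hx : -2 < x0) (hx2 : x0 ≤ 2) (hb : 0 ≤ b)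
    (h1 : CellX V0 e0 p q r Y0 (liveT p q r) x0 0 b) (h2 : Far p q r x0 b) :
    QX p q r x0 := by
  obtain ⟨A1, A2, hA⟩ := parts_of_cells hx hx2 hb h1 h2
  exact gcert_of_parts hp hq hr hx (by positivity : (0 : ℝ) < 2 / (4 + b)) A1 A2
    (hA _ _ le_rfl le_rfl)

/-- THE QUARTER from the three zones: near `[0, y1]`, middle `[y1', y2]`, far `[y2', ∞]` -/
theorem qx_zones {p q r : ℕ} (hp : 3 ≤ p) (hq : 3 ≤ q) (hqr : q ≤ r) {y1 y1' y2 y2' : ℝ}
    (e1 : y1' ≤ y1) (e2 : y2' ≤ y2) (h0 : 0 ≤ y2)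
    (h1 : CellX V0 e0 p q r Y0 (liveT p q r) (xA p q r) 0 y1)
    (h2 : TCell p q r (xA p q r) y1' y2) (h3 : Far p q r (xA p q r) y2') :
    QX p q r (xA p q r) := by
  have hr : 3 ≤ r := hq.trans hqr
  refine qx_of_cellX hp hq hr (xA_gt hp hq hqr) (xA_le2 hp hq hr) h0 ?_ (far_sub h3 e2)
  exact h1.join ((tcell_sub h2 e1 le_rfl).cellX hp hq hr)

/-- THE QUARTER from the theorems of the modules (heights in units `2 ^ (-48)`) -/
theorem qx_z {a b c : ℕ} (ha : 3 ≤ a) (hb : 3 ≤ b) (hbc : b ≤ c) {n0 n1 n2 n3 : ℕ}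
    (h1 : TCell a b c (xA a b c) ((n0 : ℝ) / 2 ^ 48) ((n1 : ℝ) / 2 ^ 48))
    (h2 : TCell a b c (xA a b c) ((n2 : ℝ) / 2 ^ 48) ((n3 : ℝ) / 2 ^ 48))
    (h3 : Far a b c (xA a b c) 8) (e0 : n0 = 0) (e1 : n2 ≤ n1) (e2 : 2251799813685248 ≤ n3) :
    QX a b c (xA a b c) := by
  have hc : 3 ≤ c := hb.trans hbc
  have hp : (0 : ℝ) < 2 ^ 48 := by positivity
  refine qx_zones (y1 := (n1 : ℝ) / 2 ^ 48) (y1' := (n2 : ℝ) / 2 ^ 48)
    (y2 := (n3 : ℝ) / 2 ^ 48) (y2' := 8) ha hb hbc ?_ ?_ (by positivity) ?_ h2 h3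
  · exact div_le_div_of_nonneg_right (by exact_mod_cast e1) hp.le
  · rw [le_div_iff₀ hp]
    have : (2251799813685248 : ℝ) ≤ (n3 : ℝ) := by exact_mod_cast e2
    linarith
  · subst e0
    have h4 := h1.cellX ha hb hc
    simpa using h4

/-- an arc of exact orders -/
theorem arc_ex {a b c : ℕ} (h : QX a b c (xA a b c)) :
    ArcA (Lab.ex a) (Lab.ex b) (Lab.ex c) := by
  rintro a' b' c' rfl rfl rfl _ _ _ _ _
  exact h

/-- a certificate clause gives the final clause -/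
theorem cls_fin {c : Cls} (h : c.Cert) : c.Fin := fun p q r hc hp hpq hqr hne =>
  top_class h p q r hc hp hpq hqr hne

/-- three different orders -/
theorem fin_pqr {a b c : ℕ} (h1 : QX a b c (xA a b c)) (h2 : QX b a c (xA b a c)) :
    Cls.Fin ⟨Lab.ex a, Lab.ex b, Lab.ex c⟩ := cls_fin (cls_A (arc_ex h1) (arc_ex h2))

/-- two equal small orders -/
theorem fin_ppr {a c : ℕ} (h1 : QX a a c (xA a a c)) :
    Cls.Fin ⟨Lab.ex a, Lab.ex a, Lab.ex c⟩ := cls_fin (cls_A2 (arc_ex h1))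

/-- two equal large orders -/
theorem fin_pqq {a b : ℕ} (h1 : QX a b b (xA a b b)) :
    Cls.Fin ⟨Lab.ex a, Lab.ex b, Lab.ex b⟩ := cls_fin (cls_A3 (arc_ex h1))

end Pool.Agent.Helper50.CXA
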